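import Pool.Agent.H.MP_b38472_lc.B

set_option autoImplicit false

namespace Pool.Agent.Results.MP_b38472_lc.No

open Pool.Agent.H.MP_fa2eca_lc Pool.Agent.H.MP_c57dc8_lc Pool.Agent.H.MP_b38472_lc
open Pool.Agent.Lib.helper21.ML Filter

theorem result (M : List Bool → ℝ) (hM : Semi M)
    (hU : ∀ N, Semi N → ∃ c > 0, ∀ x, c * N x ≤ M x) : ∃ X, Rand X ∧
      ¬ Tendsto (fun n => M (pre X (n + 1)) / M (pre X n)) atTop (nhds (1 / 2)) := by
  obtain ⟨G, C, ⟨q, hq⟩, h1, h2⟩ := game hM hU
  choose f h3 y h4 h5 h6 using fun q : {q // G q} => h2 q q.2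
  let g : ℕ → {q // G q} := fun n => (fun q => ⟨f q, h3 q⟩)^[n] ⟨q, hq⟩
  have e : ∀ n, (g (n + 1)).1 = f (g n) := fun n => by
    simp only [g, Function.iterate_succ_apply']
  have l : ∀ n, n ≤ (g n).1.1.length := fun n => by
    induction n with
    | zero => exact Nat.zero_le _
    | succ n ih =>
      have a := (h4 (g n)).length_le
      have b := (h5 (g n)).length_le
      rw [e]
      simp at b
      omega
  obtain ⟨X, hX⟩ := lim (fun n => (g n).1.1)
    (fun n => e n ▸ (h4 _).trans ((List.prefix_append _ _).trans (h5 _))) l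
  refine ⟨X, rand (B := C) hU fun m => ⟨_, l m, by rw [hX m]; exact h1 _ (g m).2⟩, fun h => ?_⟩
  obtain ⟨m, hm⟩ := eventually_atTop.1 ((tendsto_order.1 h).1 (1 / 4) (by norm_num))
  have a : y (g m) ++ [true] <+: pre X _ := hX (m + 1) ▸ e m ▸ h5 _
  have b := hm _ ((l m).trans (h4 _).length_le)
  rw [of_pre ((List.prefix_append _ _).trans a), show pre X (_ + 1) = _ by simpa using of_pre a]
    at b
  exact b.not_ge (div_le_of_le_mul₀ (hM.1 _) (by norm_num) (by linarith [h6 (g m)]))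

end Pool.Agent.Results.MP_b38472_lc.No
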